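import Pool.Agent.Q261.OP.Main

/-!
# One polynomial determines all non-degenerate endomorphisms

Let `K` be a field of characteristic zero. There is a polynomial `p` in `K[x_1, ..., x_n]` such that
`φ p = ψ p` implies `φ = ψ` for all `K`-algebra endomorphisms `φ`, `ψ`, `φ` non-degenerate.

`p = ∑_{i,l} 2 ^ e(i,l) ∑_k (x_i + x_l + a_k) ^ d`, with distinct exponents `e(i,l)` and shifts
`a_k = 4 ^ (4 ^ k)`: large powers of pairwise non-proportional polynomials are linearly independent
(Wronskians), and a polynomial which is not constant has, for one of the shifts, no proportional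
shift of a different polynomial of the family. (Proof found by helper36.)
-/

set_option autoImplicit false

namespace Pool.Agent.Results.MP_d61c7e_al.OnePolynomialDetermines

universe u

/-- The endomorphism `φ` of `K[x_1, ..., x_n]` is non-degenerate: some polynomial in its image is
not constant. -/
def NonDegenerate {K : Type u} [Field K] {n : ℕ}
    (φ : MvPolynomial (Fin n) K →ₐ[K] MvPolynomial (Fin n) K) : Prop :=
  ∃ q : MvPolynomial (Fin n) K, ∀ c : K, φ q ≠ MvPolynomial.C c

/-- For every field `K` of characteristic zero and every `n` there is a polynomial `p` such that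
every non-degenerate endomorphism `φ` of `K[x_1, ..., x_n]` is determined by `φ p` among all
endomorphisms `ψ` (non-degenerate or not). -/
theorem result (K : Type u) [Field K] [CharZero K] (n : ℕ) :
    ∃ p : MvPolynomial (Fin n) K,
      ∀ φ ψ : MvPolynomial (Fin n) K →ₐ[K] MvPolynomial (Fin n) K,
        NonDegenerate φ → φ p = ψ p → φ = ψ :=
  Q261.OP.main K n

end Pool.Agent.Results.MP_d61c7e_al.OnePolynomialDetermines
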